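import Mathlib

section

set_option autoImplicit false

namespace Pool.Agent.Lib.MP_a5a406_al

/-- The hypotheses of the problem, for the pair `(G, i)`. -/
structure Hyp {G : Type*} [Group G] (i : G) : Prop where
  tors : Monoid.IsTorsion G
  ord : orderOf i = 2
  pgrp : IsPGroup 2 (Subgroup.centralizer ({i} : Set G))
  cyc : ∀ a ∈ Subgroup.centralizer ({i} : Set G), ∀ b ∈ Subgroup.centralizer ({i} : Set G),
          ∃ c ∈ Subgroup.centralizer ({i} : Set G),
            a ∈ Subgroup.zpowers c ∧ b ∈ Subgroup.zpowers c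

variable {G : Type*} [Group G]

lemma mem_cent {i a : G} : a ∈ Subgroup.centralizer ({i} : Set G) ↔ a * i = i * a :=
  Subgroup.mem_centralizer_singleton_iff

/-- subgroups of a cyclic 2-group form a chain -/
lemma chain {a b c : G} {k : ℕ} (hc : orderOf c = 2 ^ k) (ha : a ∈ Subgroup.zpowers c)
    (hb : b ∈ Subgroup.zpowers c) : a ∈ Subgroup.zpowers b ∨ b ∈ Subgroup.zpowers a := by
  have hfin : IsOfFinOrder c := by
    rw [← orderOf_pos_iff, hc]; positivity
  -- key: c ^ (2^s) ∈ zpowers (c ^ (2^s * m')) for odd m'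
  have key : ∀ s m' : ℕ, Odd m' → c ^ (2 ^ s) ∈ Subgroup.zpowers (c ^ (2 ^ s * m')) := by
    intro s m' hm'
    have hcop : m'.Coprime (orderOf (c ^ (2 ^ s))) := by
      have h1 : orderOf (c ^ (2 ^ s)) ∣ 2 ^ k := by rw [← hc]; exact orderOf_pow_dvd _
      have h2 : m'.Coprime (2 ^ k) := by
        apply Nat.Coprime.pow_right
        exact hm'.coprime_two_right
      exact Nat.Coprime.coprime_dvd_right h1 h2
    obtain ⟨l, hl⟩ := exists_pow_eq_self_of_coprime hcop
    rw [pow_mul]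
    rw [Subgroup.mem_zpowers_iff]
    exact ⟨l, by rw [zpow_natCast]; exact hl⟩
  obtain ⟨m, rfl⟩ := (IsOfFinOrder.mem_powers_iff_mem_zpowers hfin).mpr ha
  obtain ⟨n, rfl⟩ := (IsOfFinOrder.mem_powers_iff_mem_zpowers hfin).mpr hb
  simp only
  rcases Nat.eq_zero_or_pos m with hm | hm
  · subst hm; left; simp
  rcases Nat.eq_zero_or_pos n with hn | hn
  · subst hn; right; simp
  obtain ⟨s, m', hm', rfl⟩ := Nat.exists_eq_two_pow_mul_odd hm.ne'
  obtain ⟨t, n', hn', rfl⟩ := Nat.exists_eq_two_pow_mul_odd hn.ne'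
  rcases le_total s t with hst | hst
  · right
    obtain ⟨d, rfl⟩ := Nat.exists_eq_add_of_le hst
    have h1 := key s m' hm'
    have h2 : c ^ (2 ^ (s + d) * n') = (c ^ (2 ^ s)) ^ (2 ^ d * n') := by
      rw [← pow_mul]; ring_nf
    rw [h2]
    exact Subgroup.pow_mem _ h1 _
  · left
    obtain ⟨d, rfl⟩ := Nat.exists_eq_add_of_le hst
    have h1 := key t n' hn'
    have h2 : c ^ (2 ^ (t + d) * m') = (c ^ (2 ^ t)) ^ (2 ^ d * m') := by
      rw [← pow_mul]; ring_nf
    rw [h2]
    exact Subgroup.pow_mem _ h1 _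

section basic
variable {i : G}

lemma Hyp.sq (h : Hyp i) : i * i = 1 := by
  have := pow_orderOf_eq_one i
  rw [h.ord, pow_two] at this; exact this

lemma Hyp.ne_one (h : Hyp i) : i ≠ 1 := by
  intro h1; have := h.ord; rw [h1, orderOf_one] at this; omega

lemma Hyp.inv (h : Hyp i) : i⁻¹ = i := by
  rw [inv_eq_iff_mul_eq_one]; exact h.sq

lemma Hyp.ord_pow (h : Hyp i) {a : G} (ha : a * i = i * a) : ∃ k, orderOf a = 2 ^ k := by
  have := (IsPGroup.iff_orderOf.mp h.pgrp) ⟨a, mem_cent.mpr ha⟩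
  obtain ⟨k, hk⟩ := this
  exact ⟨k, by rw [← hk, Subgroup.orderOf_mk]⟩

lemma Hyp.chain (h : Hyp i) {a b : G} (ha : a * i = i * a) (hb : b * i = i * b) :
    a ∈ Subgroup.zpowers b ∨ b ∈ Subgroup.zpowers a := by
  obtain ⟨c, hc, hac, hbc⟩ := h.cyc a (mem_cent.mpr ha) b (mem_cent.mpr hb)
  obtain ⟨k, hk⟩ := h.ord_pow (mem_cent.mp hc)
  exact MP_a5a406_al.chain hk hac hbc

lemma Hyp.comm (h : Hyp i) {a b : G} (ha : a * i = i * a) (hb : b * i = i * b) :
    a * b = b * a := by
  rcases h.chain ha hb with h1 | h1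
  · obtain ⟨k, rfl⟩ := Subgroup.mem_zpowers_iff.mp h1
    exact (Commute.refl b).zpow_left k
  · obtain ⟨k, rfl⟩ := Subgroup.mem_zpowers_iff.mp h1
    exact (Commute.refl a).zpow_right k

lemma Hyp.invol (h : Hyp i) {a : G} (ha : a * i = i * a) (ha2 : a * a = 1) : a = 1 ∨ a = i := by
  have key : ∀ x y : G, y * y = 1 → x ∈ Subgroup.zpowers y → x = 1 ∨ x = y := by
    intro x y hy hx
    obtain ⟨k, rfl⟩ := Subgroup.mem_zpowers_iff.mp hx
    rcases Int.even_or_odd' k with ⟨m, rfl | rfl⟩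
    · left
      rw [zpow_mul]
      have : y ^ (2:ℤ) = 1 := by rw [zpow_two]; exact hy
      rw [this, one_zpow]
    · right
      rw [zpow_add, zpow_mul]
      have : y ^ (2:ℤ) = 1 := by rw [zpow_two]; exact hy
      rw [this, one_zpow, one_mul, zpow_one]
  rcases h.chain ha rfl with h1 | h1
  · exact key a i h.sq h1
  · rcases key i a ha2 h1 with h2 | h2
    · exact absurd h2 h.ne_one
    · exact Or.inr h2.symm

lemma Hyp.odd_one (h : Hyp i) {a : G} (ha : a * i = i * a) (ho : Odd (orderOf a)) : a = 1 := by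
  obtain ⟨k, hk⟩ := h.ord_pow ha
  rw [hk] at ho
  rcases Nat.eq_zero_or_pos k with h0 | h0
  · subst h0; simpa using hk
  · exact absurd ho (by
      rw [Nat.not_odd_iff_even]
      exact (Nat.even_pow.mpr ⟨even_two, h0.ne'⟩))

end basic

/-- involutions, elementary form -/
def Inv (q : G) : Prop := q * q = 1 ∧ q ≠ 1

lemma Inv.inv {q : G} (hq : Inv q) : q⁻¹ = q := inv_eq_iff_mul_eq_one.mpr hq.1

lemma Inv.ord {q : G} (hq : Inv q) : orderOf q = 2 := by
  apply orderOf_eq_prime
  · rw [pow_two]; exact hq.1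
  · exact hq.2

lemma Hyp.isInv {i : G} (h : Hyp i) : Inv i := ⟨h.sq, h.ne_one⟩

lemma Inv.not_odd {q : G} (hq : Inv q) : ¬ Odd (orderOf q) := by
  rw [hq.ord]; decide

/-- an element of even order has an involution power -/
lemma exists_inv_pow (ht : Monoid.IsTorsion G) {x : G} (hx : ¬ Odd (orderOf x)) :
    ∃ n : ℕ, Inv (x ^ n) := by
  rw [Nat.not_odd_iff_even] at hx
  obtain ⟨m, hm⟩ := hx
  have hpos : 0 < orderOf x := (ht x).orderOf_pos
  refine ⟨m, ?_, ?_⟩
  · rw [← pow_add, ← hm]; exact pow_orderOf_eq_one x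
  · intro h1
    have := orderOf_dvd_of_pow_eq_one h1
    have := Nat.le_of_dvd (by omega) this
    omega

/-- L3 -/
lemma Hyp.odd_mul {i : G} (h : Hyp i) {j : G} (hj : Inv j) (hij : j ≠ i) :
    Odd (orderOf (i * j)) := by
  by_contra hcon
  obtain ⟨n, hn⟩ := exists_inv_pow h.tors hcon
  have h1 : i * (i * j) * i⁻¹ = (i * j)⁻¹ := by
    rw [mul_inv_rev, hj.inv, h.inv, ← mul_assoc, h.sq, one_mul]
  have h2 : j * (i * j) * j⁻¹ = (i * j)⁻¹ := by
    rw [mul_inv_rev, hj.inv, h.inv]
    rw [mul_assoc, mul_assoc, hj.1, mul_one]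
  have h3 : i * (i * j) ^ n * i⁻¹ = (i * j) ^ n := by
    rw [← conj_pow, h1, inv_pow, hn.inv]
  have h4 : j * (i * j) ^ n * j⁻¹ = (i * j) ^ n := by
    rw [← conj_pow, h2, inv_pow, hn.inv]
  have h5 : (i * j) ^ n * i = i * (i * j) ^ n := (mul_inv_eq_iff_eq_mul.mp h3).symm
  have h6 : (i * j) ^ n * j = j * (i * j) ^ n := (mul_inv_eq_iff_eq_mul.mp h4).symm
  rcases h.invol h5 hn.1 with h7 | h7
  · exact hn.2 h7
  · rw [h7] at h6
    rcases h.invol h6.symm hj.1 with h8 | h8
    · exact hj.2 h8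
    · exact hij h8

/-- L4: midpoint -/
lemma Hyp.midpoint {i : G} (h : Hyp i) {j : G} (hj : Inv j) : ∃ m : G, Inv m ∧ m * i * m = j := by
  by_cases hij : j = i
  · exact ⟨i, h.isInv, by rw [h.sq, one_mul, hij]⟩
  obtain ⟨k, hk⟩ := h.odd_mul hj hij
  have hx : (i * j) ^ (2 * k + 1) = 1 := by rw [← hk]; exact pow_orderOf_eq_one _
  have h1 : i * (i * j) * i⁻¹ = (i * j)⁻¹ := by
    rw [mul_inv_rev, hj.inv, h.inv, ← mul_assoc, h.sq, one_mul]
  have h3 : i * (i * j) ^ k * i = ((i * j) ^ k)⁻¹ := by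
    have : i * (i * j) ^ k * i⁻¹ = ((i * j) ^ k)⁻¹ := by
      rw [← conj_pow, h1, inv_pow]
    rwa [h.inv] at this
  have h4 : (i * j) ^ k * (i * j) ^ k = (i * j)⁻¹ := by
    rw [← pow_add, eq_inv_iff_mul_eq_one, ← pow_succ]
    convert hx using 2; omega
  refine ⟨(i * j) ^ k * i, ⟨?_, ?_⟩, ?_⟩
  · have : (i * j) ^ k * i * ((i * j) ^ k * i) = (i * j) ^ k * (i * (i * j) ^ k * i) := by
      group
    rw [this, h3, mul_inv_cancel]
  · intro hcon
    have h5 : (i * j) ^ k = i := by
      have := mul_eq_one_iff_eq_inv.mp hcon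
      rw [this, h.inv]
    have h6 : i * i = (i * j)⁻¹ := by rw [← h4, h5]
    rw [h.sq] at h6
    have h7 : i * j = 1 := by rw [← inv_inv (i * j), ← h6, inv_one]
    apply hij
    rw [mul_eq_one_iff_eq_inv'] at h7
    rw [h7, h.inv]
  · have : (i * j) ^ k * i * i * ((i * j) ^ k * i) = (i * j) ^ k * (i * i) * (i * j) ^ k * i := by
      group
    rw [this, h.sq, mul_one, h4, mul_inv_rev, hj.inv, h.inv, mul_assoc, h.sq, mul_one]

/-- transfer of the hypothesis to a conjugate -/
lemma Hyp.conj {i : G} (h : Hyp i) (g : G) : Hyp (g * i * g⁻¹) := by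
  have hmem : ∀ a : G, a ∈ Subgroup.centralizer ({g * i * g⁻¹} : Set G) ↔
      g⁻¹ * a * g ∈ Subgroup.centralizer ({i} : Set G) := by
    intro a
    rw [mem_cent, mem_cent]
    constructor
    · intro h1
      have h2 : g⁻¹ * (a * (g * i * g⁻¹)) * g = g⁻¹ * ((g * i * g⁻¹) * a) * g := by rw [h1]
      have h3 : g⁻¹ * a * g * i = g⁻¹ * (a * (g * i * g⁻¹)) * g := by group
      have h4 : i * (g⁻¹ * a * g) = g⁻¹ * ((g * i * g⁻¹) * a) * g := by group
      rw [h3, h4, h2]
    · intro h1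
      have h2 : g * (g⁻¹ * a * g * i) * g⁻¹ = g * (i * (g⁻¹ * a * g)) * g⁻¹ := by rw [h1]
      have h3 : a * (g * i * g⁻¹) = g * (g⁻¹ * a * g * i) * g⁻¹ := by group
      have h4 : (g * i * g⁻¹) * a = g * (i * (g⁻¹ * a * g)) * g⁻¹ := by group
      rw [h3, h4, h2]
  refine ⟨h.tors, ?_, ?_, ?_⟩
  · have : Inv (g * i * g⁻¹) := by
      refine ⟨?_, ?_⟩
      · have : g * i * g⁻¹ * (g * i * g⁻¹) = g * (i * i) * g⁻¹ := by group
        rw [this, h.sq]; group
      · intro hcon
        apply h.ne_one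
        have : i = g⁻¹ * (g * i * g⁻¹) * g := by group
        rw [this, hcon]; group
    exact this.ord
  · rw [IsPGroup.iff_orderOf]
    rintro ⟨a, ha⟩
    obtain ⟨k, hk⟩ := h.ord_pow (mem_cent.mp ((hmem a).mp ha))
    refine ⟨k, ?_⟩
    rw [Subgroup.orderOf_mk, ← hk]
    have : g⁻¹ * a * g = MulAut.conj g⁻¹ a := by simp
    rw [this, MulEquiv.orderOf_eq]
  · intro a ha b hb
    obtain ⟨c, hc, hac, hbc⟩ := h.cyc _ ((hmem a).mp ha) _ ((hmem b).mp hb)
    refine ⟨g * c * g⁻¹, ?_, ?_, ?_⟩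
    · rw [hmem]
      have : g⁻¹ * (g * c * g⁻¹) * g = c := by group
      rwa [this]
    · obtain ⟨n, hn⟩ := Subgroup.mem_zpowers_iff.mp hac
      rw [Subgroup.mem_zpowers_iff]
      refine ⟨n, ?_⟩
      rw [conj_zpow, hn]; group
    · obtain ⟨n, hn⟩ := Subgroup.mem_zpowers_iff.mp hbc
      rw [Subgroup.mem_zpowers_iff]
      refine ⟨n, ?_⟩
      rw [conj_zpow, hn]; group

/-- L5: the hypothesis holds at every involution -/
lemma Hyp.all {i : G} (h : Hyp i) {j : G} (hj : Inv j) : Hyp j := by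
  obtain ⟨m, hm, hmj⟩ := h.midpoint hj
  have := h.conj m
  rwa [hm.inv, hmj] at this

/-- L6: midpoints are unique -/
lemma Hyp.midpoint_unique {i : G} (h : Hyp i) {m m' : G} (hm : Inv m) (hm' : Inv m')
    (heq : m * i * m = m' * i * m') : m = m' := by
  by_contra hne
  have h1 : (m' * m) * i = i * (m' * m) := by
    have h2 : m' * (m * i * m) * m = m' * (m' * i * m') * m := by rw [heq]
    have h3 : m' * (m * i * m) * m = (m' * m) * i * (m * m) := by group
    have h4 : m' * (m' * i * m') * m = (m' * m') * i * (m' * m) := by group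
    rw [h3, h4, hm.1, hm'.1, mul_one, one_mul] at h2
    exact h2
  have h5 := (h.all hm').odd_mul hm hne
  have h6 := h.odd_one h1 h5
  apply hne
  rw [mul_eq_one_iff_eq_inv'] at h6
  rw [h6, hm'.inv]

/-- L7 existence -/
lemma Hyp.coset_exists {i : G} (h : Hyp i) (g : G) : ∃ c : G, c * i = i * c ∧ Inv (c * g) := by
  have hj : Inv (g⁻¹ * i * g) := by
    have := (h.conj g⁻¹).isInv
    rwa [inv_inv] at this
  obtain ⟨m, hm, hmj⟩ := h.midpoint hj
  refine ⟨(g * m)⁻¹, ?_, ?_⟩
  · have h1 : (g * m) * i * (g * m)⁻¹ = i := by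
      have : (g * m) * i * (g * m)⁻¹ = g * (m * i * m⁻¹) * g⁻¹ := by group
      rw [this, hm.inv, hmj]; group
    have h2 : (g * m) * i = i * (g * m) := mul_inv_eq_iff_eq_mul.mp h1
    have h3 : (g * m)⁻¹ * ((g * m) * i) * (g * m)⁻¹ = (g * m)⁻¹ * (i * (g * m)) * (g * m)⁻¹ := by
      rw [h2]
    have h4 : (g * m)⁻¹ * ((g * m) * i) * (g * m)⁻¹ = i * (g * m)⁻¹ := by group
    have h5 : (g * m)⁻¹ * (i * (g * m)) * (g * m)⁻¹ = (g * m)⁻¹ * i := by group
    rw [h4, h5] at h3
    exact h3.symm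
  · have : (g * m)⁻¹ * g = m := by rw [mul_inv_rev, hm.inv]; group
    rw [this]; exact hm

/-- L7 uniqueness -/
lemma Hyp.coset_unique {i : G} (h : Hyp i) {x y c : G} (hx : Inv x) (hy : Inv y)
    (hc : c * i = i * c) (hxy : x = c * y) : x = y := by
  apply h.midpoint_unique hx hy
  have h1 : c⁻¹ * i * c = i := by
    rw [mul_assoc, ← hc]; group
  calc x * i * x = x⁻¹ * i * x := by rw [hx.inv]
    _ = y⁻¹ * (c⁻¹ * i * c) * y := by rw [hxy]; group
    _ = y * i * y := by rw [h1, hy.inv]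

/-- L8: a subgroup of odd elements normalised by an involution is inverted -/
lemma Hyp.inverts {q : G} (h : Hyp q) (K : Subgroup G) (hodd : ∀ x ∈ K, Odd (orderOf x))
    (hn : ∀ x ∈ K, q * x * q ∈ K) {b : G} (hb : b ∈ K) : q * b * q = b⁻¹ := by
  have hxK : q * b⁻¹ * q * b ∈ K := K.mul_mem (hn _ (K.inv_mem hb)) hb
  set x := q * b⁻¹ * q * b with hx
  obtain ⟨k, hk⟩ := hodd x hxK
  have hx1 : x ^ (2 * k + 1) = 1 := by rw [← hk]; exact pow_orderOf_eq_one _
  have hqx : q * x * q⁻¹ = x⁻¹ := by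
    have h1 : q * x * q⁻¹ = (q * q) * b⁻¹ * q * b * q⁻¹ := by rw [hx]; group
    have h2 : x⁻¹ = b⁻¹ * q⁻¹ * b * q⁻¹ := by rw [hx]; group
    rw [h1, h2, h.sq, one_mul, h.inv]
  have hqxk : q * x ^ k * q⁻¹ = (x ^ k)⁻¹ := by rw [← conj_pow, hqx, inv_pow]
  have hqb : q * b * q = b * x⁻¹ := by
    have h2 : b * x⁻¹ = q⁻¹ * b * q⁻¹ := by rw [hx]; group
    rw [h2, h.inv]
  have hxx : x⁻¹ * (x ^ k)⁻¹ = x ^ k := by
    rw [← mul_inv_rev, inv_eq_iff_mul_eq_one, mul_assoc, ← pow_succ', ← pow_add]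
    convert hx1 using 2; omega
  have hy : (b * x ^ k) * q = q * (b * x ^ k) := by
    have h1 : q * (b * x ^ k) * q⁻¹ = b * x ^ k := by
      calc q * (b * x ^ k) * q⁻¹ = (q * b * q⁻¹) * (q * x ^ k * q⁻¹) := by group
        _ = b * (x⁻¹ * (x ^ k)⁻¹) := by rw [hqxk, h.inv, hqb]; group
        _ = b * x ^ k := by rw [hxx]
    exact (mul_inv_eq_iff_eq_mul.mp h1).symm
  have hy1 := h.odd_one hy (hodd _ (K.mul_mem hb (K.pow_mem hxK k)))
  have hb1 : b = (x ^ k)⁻¹ := mul_eq_one_iff_eq_inv.mp hy1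
  have : q * b * q = b⁻¹ := by
    have h3 : q * b * q⁻¹ = b⁻¹ := by
      rw [hb1, inv_inv]
      have : q * (x ^ k)⁻¹ * q⁻¹ = (q * x ^ k * q⁻¹)⁻¹ := by group
      rw [this, hqxk, inv_inv]
    rwa [h.inv] at h3
  exact this

end Pool.Agent.Lib.MP_a5a406_al
end

section

set_option autoImplicit false

namespace Pool.Agent.Lib.MP_a5a406_al

variable {G : Type*} [Group G]

/-- L9 -/
lemma Hyp.cent_inv {q : G} (h : Hyp q) {z : G} (hz : z ≠ 1) (ho : Odd (orderOf z))
    (hq : q * z * q = z⁻¹) {c : G} (hc : c * z = z * c) :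
    Odd (orderOf c) ∧ q * c * q = c⁻¹ := by
  have hodd : ∀ x ∈ Subgroup.centralizer ({z} : Set G), Odd (orderOf x) := by
    intro x hx
    by_contra hcon
    obtain ⟨n, hn⟩ := exists_inv_pow h.tors hcon
    have hxz : x * z = z * x := mem_cent.mp hx
    have h1 : z * x ^ n = x ^ n * z := ((Commute.pow_left (show Commute x z from hxz) n)).symm
    exact hz ((h.all hn).odd_one h1 ho)
  refine ⟨hodd c (mem_cent.mpr hc), ?_⟩
  apply h.inverts (Subgroup.centralizer ({z} : Set G)) hodd ?_ (mem_cent.mpr hc)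
  intro x hx
  rw [mem_cent] at hx ⊢
  have hq' : q * z⁻¹ * q = z := by
    have : q * z⁻¹ * q = (q⁻¹ * z * q⁻¹)⁻¹ := by group
    rw [this, h.inv, hq, inv_inv]
  have hxz : x * z⁻¹ = z⁻¹ * x := by
    have : Commute x z⁻¹ := (show Commute x z from hx).inv_right
    exact this
  calc q * x * q * z = q * x * (q * z * q) * q⁻¹ := by group
    _ = q * (x * z⁻¹) * q⁻¹ := by rw [hq]; group
    _ = (q * z⁻¹ * q) * (q⁻¹ * x * q⁻¹) := by rw [hxz]; group
    _ = z * (q * x * q) := by rw [hq', h.inv]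

lemma Hyp.cent_comm {q : G} (h : Hyp q) {z : G} (hz : z ≠ 1) (ho : Odd (orderOf z))
    (hq : q * z * q = z⁻¹) {c d : G} (hc : c * z = z * c) (hd : d * z = z * d) :
    c * d = d * c := by
  have hcd : (c * d) * z = z * (c * d) := by
    rw [mul_assoc, hd, ← mul_assoc, hc, mul_assoc]
  have h1 := (h.cent_inv hz ho hq hc).2
  have h2 := (h.cent_inv hz ho hq hd).2
  have h3 := (h.cent_inv hz ho hq hcd).2
  have h4 : q * (c * d) * q = (q * c * q) * (q⁻¹ * q⁻¹) * (q * d * q) := by group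
  have h5 : q⁻¹ * q⁻¹ = 1 := by rw [h.inv, h.sq]
  rw [h5, mul_one, h1, h2, h3, ← mul_inv_rev] at h4
  exact (inv_injective h4.symm).symm

/-- L10 -/
lemma Hyp.two_lines {i : G} (h : Hyp i) {q q' : G} (hq : Inv q) (hq' : Inv q') (hne : q ≠ q')
    {z z' : G} (hz1 : q * z * q = z⁻¹) (hz2 : q' * z * q' = z⁻¹)
    (hz3 : q * z' * q = z'⁻¹) (hz4 : q' * z' * q' = z'⁻¹) : z * z' = z' * z := by
  have key : ∀ w : G, q * w * q = w⁻¹ → q' * w * q' = w⁻¹ → w * (q * q') = (q * q') * w := by
    intro w h1 h2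
    have h3 : w = q' * w⁻¹ * q' := by
      have : q' * w⁻¹ * q' = (q'⁻¹ * w * q'⁻¹)⁻¹ := by group
      rw [this, hq'.inv, h2, inv_inv]
    have h4 : q * q' * w * (q' * q) = w := by
      calc q * q' * w * (q' * q) = q * (q' * w * q') * q := by group
        _ = q * w⁻¹ * q := by rw [h2]
        _ = (q⁻¹ * w * q⁻¹)⁻¹ := by group
        _ = w := by rw [hq.inv, h1, inv_inv]
    have h5 : (q' * q) = (q * q')⁻¹ := by rw [mul_inv_rev, hq.inv, hq'.inv]
    rw [h5] at h4
    exact (mul_inv_eq_iff_eq_mul.mp h4).symm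
  have hHq := h.all hq
  have hHq' := h.all hq'
  have hodd := hHq.odd_mul hq' (Ne.symm hne)
  have hu1 : q * q' ≠ 1 := by
    intro hcon
    apply hne
    rw [mul_eq_one_iff_eq_inv, hq'.inv] at hcon
    exact hcon
  have huq : q * (q * q') * q = (q * q')⁻¹ := by
    rw [mul_inv_rev, hq.inv, hq'.inv, ← mul_assoc, hq.1, one_mul]
  exact hHq.cent_comm hu1 hodd huq (key z hz1 hz2) (key z' hz3 hz4)

lemma Hyp.axis {i : G} (h : Hyp i) {q z : G} (hq : Inv q) (hr : Inv (z * q)) (hz : z ≠ 1) :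
    q * z * q = z⁻¹ ∧ Odd (orderOf z) := by
  have h1 : z = (z * q) * q := by rw [mul_assoc, hq.1, mul_one]
  constructor
  · have h2 : q * z * q = q * (z * q) := by group
    have h3 : z⁻¹ = q * (z * q) := by
      have : q * (z * q) = q⁻¹ * (z * q)⁻¹ := by rw [hq.inv, hr.inv]
      rw [this]; nth_rewrite 1 [h1]; rw [mul_inv_rev]
    rw [h2, h3]
  · have h2 := (h.all hr).odd_mul hq (by
      intro hcon
      apply hz
      rw [h1, ← hcon]; exact hq.1)
    rwa [← h1] at h2

/-- The line cover argument, for an abstract notion of small sets. -/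
theorem Hyp.lineCover {i : G} (h : Hyp i) (Small : Set G → Prop)
    (mono : ∀ A B : Set G, A ⊆ B → Small B → Small A)
    (union : ∀ p : G, Inv p → ∀ f : G → Set G, (∀ c, c * p = p * c → Small (f c)) →
      Small {x | ∃ c, c * p = p * c ∧ x ∈ f c})
    (subs : ∀ A : Set G, A.Subsingleton → Small A)
    (hJ : ¬ Small {q : G | Inv q}) :
    ∃ H : Subgroup G, (H : Set G) = {g : G | Odd (orderOf g) ∧ i * g * i⁻¹ = g⁻¹} := by
  -- a non-central element
  have hg0 : ∃ g0 : G, g0 * i ≠ i * g0 := by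
    by_contra hcon
    push Not at hcon
    apply hJ
    apply subs
    intro a ha b hb
    have h1 : ∀ x : G, Inv x → x = i := by
      intro x hx
      rcases h.invol (hcon x) hx.1 with h2 | h2
      · exact absurd h2 hx.2
      · exact h2
    rw [h1 a ha, h1 b hb]
  obtain ⟨g0, hg0⟩ := hg0
  -- a large line
  have hL : ∃ c, c * i = i * c ∧ ¬ Small {q | Inv q ∧ Inv (c * g0 * q)} := by
    by_contra hcon
    push Not at hcon
    apply hJ
    refine mono _ _ ?_ (union i h.isInv (fun c => {q | Inv q ∧ Inv (c * g0 * q)}) hcon)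
    intro q hq
    obtain ⟨c, hc, hcq⟩ := h.coset_exists (g0 * q)
    exact ⟨c, hc, hq, by rw [mul_assoc]; exact hcq⟩
  obtain ⟨c0, hc0, hL⟩ := hL
  set z0 := c0 * g0 with hz0
  have hz01 : z0 ≠ 1 := by
    intro hcon
    apply hg0
    have h1 : g0 = c0⁻¹ := by
      rw [hz0] at hcon
      exact (mul_eq_one_iff_eq_inv'.mp hcon)
    rw [h1]
    exact (show Commute c0 i from hc0).inv_left
  obtain ⟨q0, hq0, hq0'⟩ : ∃ q0, Inv q0 ∧ Inv (z0 * q0) := by
    by_contra hcon
    push Not at hcon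
    apply hL
    apply subs
    intro a ha
    exact absurd ha.2 (hcon a ha.1)
  have hHq0 := h.all hq0
  obtain ⟨hz0inv, hz0odd⟩ := h.axis hq0 hq0' hz01
  -- every coset meets the centraliser of z0
  have hB : ∀ p g : G, Inv p → g * p ≠ p * g → ∃ c, c * p = p * c ∧ (c * g) * z0 = z0 * (c * g) := by
    intro p g hp hg
    have h1 : ∃ c, c * p = p * c ∧ ¬ Small {q | (Inv q ∧ Inv (z0 * q)) ∧ Inv (c * g * q)} := by
      by_contra hcon
      push Not at hcon
      apply hL
      refine mono _ _ ?_ (union p hp (fun c => {q | (Inv q ∧ Inv (z0 * q)) ∧ Inv (c * g * q)}) hcon)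
      intro q hq
      obtain ⟨c, hc, hcq⟩ := (h.all hp).coset_exists (g * q)
      exact ⟨c, hc, hq, by rw [mul_assoc]; exact hcq⟩
    obtain ⟨c, hc, hns⟩ := h1
    refine ⟨c, hc, ?_⟩
    have h2 : ¬ ({q | (Inv q ∧ Inv (z0 * q)) ∧ Inv (c * g * q)} : Set G).Subsingleton :=
      fun hcon => hns (subs _ hcon)
    rw [Set.not_subsingleton_iff] at h2
    obtain ⟨q, ⟨⟨hq1, hq2⟩, hq3⟩, q', ⟨⟨hq1', hq2'⟩, hq3'⟩, hne⟩ := h2
    have hcg1 : c * g ≠ 1 := by
      intro hcon
      apply hg
      rw [mul_eq_one_iff_eq_inv'.mp hcon]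
      exact (show Commute c p from hc).inv_left
    exact h.two_lines hq1 hq1' hne (h.axis hq1 hq3 hcg1).1 (h.axis hq1' hq3' hcg1).1
      (h.axis hq1 hq2 hz01).1 (h.axis hq1' hq2' hz01).1
  -- all involutions lie in q0 * C(z0)
  have hJB : ∀ j : G, Inv j → (q0 * j) * z0 = z0 * (q0 * j) := by
    intro j hj
    by_cases hjq : j = q0
    · rw [hjq, hq0.1]; group
    have hnc : j * q0 ≠ q0 * j := by
      intro hcon
      rcases hHq0.invol hcon hj.1 with h1 | h1
      · exact hj.2 h1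
      · exact hjq h1
    obtain ⟨c, hc, hcj⟩ := hB q0 j hq0 hnc
    obtain ⟨hbodd, hbinv⟩ := hHq0.cent_inv hz01 hz0odd hz0inv hcj
    have hI : Inv (q0 * (c * j)) := by
      refine ⟨?_, ?_⟩
      · have : q0 * (c * j) * (q0 * (c * j)) = (q0 * (c * j) * q0) * (c * j) := by group
        rw [this, hbinv, inv_mul_cancel]
      · intro hcon
        have h1 : c * j = q0 := by
          have := mul_eq_one_iff_eq_inv'.mp hcon
          rw [this, hq0.inv]
        rw [h1] at hbodd
        exact hq0.not_odd hbodd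
    have h2 : j = (c⁻¹ * q0) * (q0 * (c * j)) := by
      have : (c⁻¹ * q0) * (q0 * (c * j)) = c⁻¹ * (q0 * q0) * (c * j) := by group
      rw [this, hq0.1]; group
    have h3 : (c⁻¹ * q0) * q0 = q0 * (c⁻¹ * q0) := by
      have h4 : Commute c⁻¹ q0 := (show Commute c q0 from hc).inv_left
      have h5 : Commute (c⁻¹ * q0) q0 := h4.mul_left (Commute.refl q0)
      exact h5
    have h4 := hHq0.coset_unique hj hI h3 h2
    have h5 : q0 * j = c * j := by
      nth_rewrite 1 [h4]
      rw [← mul_assoc, hq0.1, one_mul]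
    rw [h5]; exact hcj
  refine ⟨Subgroup.centralizer ({z0} : Set G), ?_⟩
  ext g
  simp only [SetLike.mem_coe, Set.mem_setOf_eq]
  rw [mem_cent]
  constructor
  · intro hg
    obtain ⟨ho, hinv⟩ := hHq0.cent_inv hz01 hz0odd hz0inv hg
    refine ⟨ho, ?_⟩
    have hbi := hJB i h.isInv
    have hcomm := hHq0.cent_comm hz01 hz0odd hz0inv hbi hg
    have h1 : i = q0 * (q0 * i) := by rw [← mul_assoc, hq0.1, one_mul]
    calc i * g * i⁻¹ = q0 * ((q0 * i) * g) * i⁻¹ := by nth_rewrite 1 [h1]; group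
      _ = q0 * g * q0 := by rw [hcomm]; group
      _ = g⁻¹ := hinv
  · rintro ⟨ho, hinv⟩
    have hr : Inv (i * g) := by
      refine ⟨?_, ?_⟩
      · have : i * g * (i * g) = (i * g * i) * g := by group
        rw [this]
        have h1 : i * g * i = g⁻¹ := by rw [h.inv] at hinv; exact hinv
        rw [h1, inv_mul_cancel]
      · intro hcon
        have h1 : g = i := by
          have := mul_eq_one_iff_eq_inv'.mp hcon
          rw [this, h.inv]
        rw [h1] at ho
        exact h.isInv.not_odd ho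
    have h1 : Commute (q0 * i) z0 := hJB i h.isInv
    have h2 : Commute (q0 * (i * g)) z0 := hJB (i * g) hr
    have h3 : g = (q0 * i)⁻¹ * (q0 * (i * g)) := by group
    rw [h3]
    exact (h1.inv_left.mul_left h2)

end Pool.Agent.Lib.MP_a5a406_al
end

section

set_option autoImplicit false

namespace Pool.Agent.Lib.MP_a5a406_al

variable {G : Type*} [Group G]

/-- finitely many elements of each order in the centraliser -/
lemma Hyp.finite_order {i : G} (h : Hyp i) (n : ℕ) :
    {a : G | a * i = i * a ∧ orderOf a = n}.Finite := by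
  by_cases hne : ∃ b : G, b * i = i * b ∧ orderOf b = n
  · obtain ⟨b, hb, hbn⟩ := hne
    have hfinb : Finite (Subgroup.zpowers b) :=
      (finite_zpowers.mpr (h.tors b)).to_subtype
    apply Set.Finite.subset (Set.toFinite (Subgroup.zpowers b : Set G))
    rintro a ⟨ha, han⟩
    rcases h.chain ha hb with h1 | h1
    · exact h1
    · have hfina : Finite (Subgroup.zpowers a) :=
        (finite_zpowers.mpr (h.tors a)).to_subtype
      have h2 : Subgroup.zpowers b ≤ Subgroup.zpowers a := by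
        rw [Subgroup.zpowers_le]; exact h1
      have h3 := Subgroup.eq_of_le_of_card_ge h2 (by
        rw [Nat.card_zpowers, Nat.card_zpowers, han, hbn])
      show a ∈ Subgroup.zpowers b
      rw [h3]; exact Subgroup.mem_zpowers a
  · convert Set.finite_empty
    ext a
    simp only [Set.mem_setOf_eq, Set.mem_empty_iff_false, iff_false]
    intro ha
    exact hne ⟨a, ha⟩

lemma Hyp.countable_cent {i : G} (h : Hyp i) : {a : G | a * i = i * a}.Countable := by
  have h1 : {a : G | a * i = i * a} = ⋃ n : ℕ, {a : G | a * i = i * a ∧ orderOf a = n} := by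
    ext a; simp
  rw [h1]
  exact Set.countable_iUnion (fun n => (h.finite_order n).countable)

lemma exists_conj {i : G} (h : Hyp i) {q : G} (hq : Inv q) : ∃ g : G, g * i * g⁻¹ = q := by
  obtain ⟨m, hm, hmq⟩ := h.midpoint hq
  exact ⟨m, by rw [hm.inv]; exact hmq⟩

lemma commute_unique {i : G} (h : Hyp i) {x q q' : G} (hq : Inv q) (hq' : Inv q') (hx : x ≠ 1)
    (h1 : x * q = q * x) (h2 : x * q' = q' * x) : q = q' := by
  have hHq := h.all hq
  have hHq' := h.all hq'
  have hno : ¬ Odd (orderOf x) := fun ho => hx (hHq.odd_one h1 ho)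
  obtain ⟨n, hn⟩ := exists_inv_pow h.tors hno
  have h3 : x ^ n * q = q * x ^ n := (show Commute x q from h1).pow_left n
  have h4 : x ^ n * q' = q' * x ^ n := (show Commute x q' from h2).pow_left n
  rcases hHq.invol h3 hn.1 with h5 | h5
  · exact absurd h5 hn.2
  rcases hHq'.invol h4 hn.1 with h6 | h6
  · exact absurd h6 hn.2
  rw [← h5, ← h6]

/-- the finite case -/
theorem Hyp.finite_case {i : G} (h : Hyp i) [Finite G] :
    ∃ H : Subgroup G, (H : Set G) = {g : G | Odd (orderOf g) ∧ i * g * i⁻¹ = g⁻¹} := by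
  classical
  have key : ∀ x : G, Odd (orderOf x) → ∃ q, Inv q ∧ x = i * q := by
    let J := {q : G // Inv q}
    let C := {c : G // c * i = i * c}
    have hgq : ∀ q : J, ∃ g : G, g * i * g⁻¹ = q.1 := fun q => exists_conj h q.2
    choose γ hγ using hgq
    let F : J × C → G := fun p => if p.2.1 = 1 then i * p.1.1 else γ p.1 * p.2.1 * (γ p.1)⁻¹
    let E : J × C → G := fun p => (p.2.1)⁻¹ * p.1.1
    have hE : Function.Surjective E := by
      intro g
      obtain ⟨c, hc, hcg⟩ := h.coset_exists g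
      exact ⟨(⟨c * g, hcg⟩, ⟨c, hc⟩), by simp [E]⟩
    have hFcomm : ∀ (q : J) (c : C), γ q * c.1 * (γ q)⁻¹ * q.1 = q.1 * (γ q * c.1 * (γ q)⁻¹) := by
      intro q c
      rw [← hγ q]
      have h1 : γ q * c.1 * (γ q)⁻¹ * (γ q * i * (γ q)⁻¹) = γ q * (c.1 * i) * (γ q)⁻¹ := by group
      have h2 : γ q * i * (γ q)⁻¹ * (γ q * c.1 * (γ q)⁻¹) = γ q * (i * c.1) * (γ q)⁻¹ := by group
      rw [h1, h2, c.2]
    have hFne : ∀ (q : J) (c : C), c.1 ≠ 1 → γ q * c.1 * (γ q)⁻¹ ≠ 1 := by
      intro q c hc hcon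
      apply hc
      have : c.1 = (γ q)⁻¹ * (γ q * c.1 * (γ q)⁻¹) * γ q := by group
      rw [this, hcon]; group
    have hoddiq : ∀ q : J, Odd (orderOf (i * q.1)) := by
      intro q
      by_cases hqi : q.1 = i
      · rw [hqi, h.sq, orderOf_one]; exact _root_.odd_one
      · exact h.odd_mul q.2 hqi
    have hF : Function.Injective F := by
      rintro ⟨q, c⟩ ⟨q', c'⟩ heq
      simp only [F] at heq
      by_cases hc : c.1 = 1
      · by_cases hc' : c'.1 = 1
        · rw [if_pos hc, if_pos hc'] at heq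
          have h1 : q = q' := Subtype.ext (mul_left_cancel heq)
          have h2 : c = c' := Subtype.ext (hc.trans hc'.symm)
          rw [h1, h2]
        · rw [if_pos hc, if_neg hc'] at heq
          exfalso
          have h1 := hoddiq q
          rw [heq] at h1
          exact hFne q' c' hc' ((h.all q'.2).odd_one (hFcomm q' c') h1)
      · by_cases hc' : c'.1 = 1
        · rw [if_neg hc, if_pos hc'] at heq
          exfalso
          have h1 := hoddiq q'
          rw [← heq] at h1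
          exact hFne q c hc ((h.all q.2).odd_one (hFcomm q c) h1)
        · rw [if_neg hc, if_neg hc'] at heq
          have h1 : q = q' := by
            apply Subtype.ext
            refine commute_unique h q.2 q'.2 (hFne q c hc) (hFcomm q c) ?_
            rw [heq]; exact hFcomm q' c'
          subst h1
          have h2 : c = c' := Subtype.ext (mul_left_cancel (mul_right_cancel heq))
          rw [h2]
    have hbij := hF.bijective_of_nat_card_le (Nat.card_le_card_of_surjective E hE)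
    intro x hx
    obtain ⟨⟨q, c⟩, hqc⟩ := hbij.2 x
    simp only [F] at hqc
    by_cases hc : c.1 = 1
    · rw [if_pos hc] at hqc
      exact ⟨q.1, q.2, hqc.symm⟩
    · rw [if_neg hc] at hqc
      exfalso
      rw [← hqc] at hx
      exact hFne q c hc ((h.all q.2).odd_one (hFcomm q c) hx)
  have key2 : ∀ p : G, Inv p → ∀ x : G, Odd (orderOf x) → Inv (p * x) := by
    intro p hp x hx
    obtain ⟨g, hg⟩ := exists_conj h hp
    have h1 : Odd (orderOf (g⁻¹ * x * g)) := by
      have : g⁻¹ * x * g = MulAut.conj g⁻¹ x := by simp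
      rw [this, MulEquiv.orderOf_eq]; exact hx
    obtain ⟨q, hq, hxq⟩ := key _ h1
    have h2 : p * x = g * q * g⁻¹ := by
      have h3 : x = g * (i * q) * g⁻¹ := by rw [← hxq]; group
      rw [h3, ← hg]
      have : g * i * g⁻¹ * (g * (i * q) * g⁻¹) = g * (i * i) * q * g⁻¹ := by group
      rw [this, h.sq]; group
    rw [h2]
    refine ⟨?_, ?_⟩
    · have : g * q * g⁻¹ * (g * q * g⁻¹) = g * (q * q) * g⁻¹ := by group
      rw [this, hq.1]; group
    · intro hcon
      apply hq.2
      have : q = g⁻¹ * (g * q * g⁻¹) * g := by group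
      rw [this, hcon]; group
  refine ⟨{ carrier := {g : G | Odd (orderOf g)}
            mul_mem' := ?_
            one_mem' := ?_
            inv_mem' := ?_ }, ?_⟩
  · intro x y hx hy
    simp only [Set.mem_setOf_eq] at hx hy ⊢
    have hq := key2 i h.isInv x hx
    have hr := key2 (i * x) hq y hy
    have h1 : x * y = i * (i * x * y) := by
      have : i * (i * x * y) = (i * i) * x * y := by group
      rw [this, h.sq, one_mul]
    rw [h1]
    by_cases hri : i * x * y = i
    · rw [hri, h.sq, orderOf_one]; exact _root_.odd_one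
    · exact h.odd_mul hr hri
  · simp
  · intro x hx
    simpa using hx
  · ext g
    simp only [Subgroup.coe_set_mk, Submonoid.coe_set_mk, Subsemigroup.coe_set_mk,
      Set.mem_setOf_eq]
    constructor
    · intro hg
      refine ⟨hg, ?_⟩
      have h1 := (key2 i h.isInv g hg).1
      rw [h.inv, eq_inv_iff_mul_eq_one, ← h1]
      group
    · exact fun hg => hg.1

/-- Theorem A -/
theorem Hyp.theoremA {i : G} (h : Hyp i)
    (hbig : Uncountable G ∨ Finite (Subgroup.centralizer ({i} : Set G))) :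
    ∃ H : Subgroup G, (H : Set G) = {g : G | Odd (orderOf g) ∧ i * g * i⁻¹ = g⁻¹} := by
  have hset : ∀ p : G, {a : G | a * p = p * a} = (Subgroup.centralizer ({p} : Set G) : Set G) := by
    intro p; ext a; simp only [Set.mem_setOf_eq, SetLike.mem_coe]; exact mem_cent.symm
  have hcover : {g : G | True} ⊆ (fun p : G × G => p.1⁻¹ * p.2) ''
      ({a : G | a * i = i * a} ×ˢ {q : G | Inv q}) := by
    intro g _
    obtain ⟨c, hc, hcg⟩ := h.coset_exists g
    exact ⟨(c, c * g), ⟨hc, hcg⟩, by simp⟩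
  rcases hbig with hunc | hfin
  · apply h.lineCover (fun A => A.Countable)
    · intro A B hAB hB; exact hB.mono hAB
    · intro p hp f hf
      have h1 : {x | ∃ c, c * p = p * c ∧ x ∈ f c} = ⋃ c ∈ {a : G | a * p = p * a}, f c := by
        ext x; simp
      rw [h1]
      exact (h.all hp).countable_cent.biUnion hf
    · intro A hA; exact hA.countable
    · intro hJ
      have h1 : ({g : G | True} : Set G).Countable :=
        ((h.countable_cent.prod hJ).image _).mono hcover
      have h2 : (Set.univ : Set G).Countable := h1.mono (fun _ _ => trivial)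
      exact (not_countable_iff.mpr hunc) (Set.countable_univ_iff.mp h2)
  · have hfin1 : {a : G | a * i = i * a}.Finite := by
      rw [hset]; exact Set.toFinite _
    by_cases hJ : {q : G | Inv q}.Finite
    · have h1 : ({g : G | True} : Set G).Finite :=
        ((hfin1.prod hJ).image _).subset hcover
      have h2 : (Set.univ : Set G).Finite := h1.subset (fun _ _ => trivial)
      have : Finite G := Set.finite_univ_iff.mp h2
      exact h.finite_case
    · apply h.lineCover (fun A => A.Finite)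
      · intro A B hAB hB; exact hB.subset hAB
      · intro p hp f hf
        have h1 : {x | ∃ c, c * p = p * c ∧ x ∈ f c} = ⋃ c ∈ {a : G | a * p = p * a}, f c := by
          ext x; simp
        rw [h1]
        refine Set.Finite.biUnion ?_ hf
        obtain ⟨g, hg⟩ := exists_conj h hp
        have h2 : {a : G | a * p = p * a} ⊆ (fun a => g * a * g⁻¹) '' {a : G | a * i = i * a} := by
          intro a ha
          refine ⟨g⁻¹ * a * g, ?_, by group⟩
          simp only [Set.mem_setOf_eq] at ha ⊢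
          rw [← hg] at ha
          have h3 : g⁻¹ * a * g * i = g⁻¹ * (a * (g * i * g⁻¹)) * g := by group
          have h4 : i * (g⁻¹ * a * g) = g⁻¹ * ((g * i * g⁻¹) * a) * g := by group
          rw [h3, h4, ha]
        exact (hfin1.image _).subset h2
      · intro A hA; exact hA.finite
      · exact hJ

end Pool.Agent.Lib.MP_a5a406_al
end
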