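import Mathlib
import Pool.Agent.Lib.MP_a5a406_al.TheoremA

section

set_option autoImplicit false

namespace Pool.Agent.Lib.MP_a5a406_al

variable {G : Type*} [Group G]

/-- the hypothesis passes to subgroups containing `i` -/
lemma Hyp.sub {i : G} (h : Hyp i) (H : Subgroup G) (hi : i ∈ H) : Hyp (⟨i, hi⟩ : H) := by
  have hmem : ∀ a : H, a ∈ Subgroup.centralizer ({⟨i, hi⟩} : Set H) → (a : G) * i = i * a := by
    intro a ha
    have := mem_cent.mp ha
    exact congrArg Subtype.val this
  refine ⟨?_, ?_, ?_, ?_⟩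
  · intro x
    rw [← orderOf_pos_iff, ← Subgroup.orderOf_coe, orderOf_pos_iff]
    exact h.tors x
  · rw [Subgroup.orderOf_mk]; exact h.ord
  · rw [IsPGroup.iff_orderOf]
    rintro ⟨a, ha⟩
    obtain ⟨k, hk⟩ := h.ord_pow (hmem a ha)
    exact ⟨k, by rw [Subgroup.orderOf_mk, ← Subgroup.orderOf_coe]; exact hk⟩
  · intro a ha b hb
    have key : ∀ x y : H, (x : G) ∈ Subgroup.zpowers (y : G) → x ∈ Subgroup.zpowers y := by
      intro x y hxy
      obtain ⟨n, hn⟩ := Subgroup.mem_zpowers_iff.mp hxy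
      exact Subgroup.mem_zpowers_iff.mpr ⟨n, Subtype.ext (by push_cast; exact hn)⟩
    rcases h.chain (hmem a ha) (hmem b hb) with h1 | h1
    · exact ⟨b, hb, key a b h1, Subgroup.mem_zpowers b⟩
    · exact ⟨a, ha, Subgroup.mem_zpowers a, key b a h1⟩

lemma Inv.conj {q : G} (hq : Inv q) (g : G) : Inv (g * q * g⁻¹) := by
  refine ⟨?_, ?_⟩
  · have : g * q * g⁻¹ * (g * q * g⁻¹) = g * (q * q) * g⁻¹ := by group
    rw [this, hq.1]; group
  · intro hcon
    apply hq.2
    have : q = g⁻¹ * (g * q * g⁻¹) * g := by group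
    rw [this, hcon]; group

lemma odd_conj {x : G} (hx : Odd (orderOf x)) (g : G) : Odd (orderOf (g * x * g⁻¹)) := by
  have : g * x * g⁻¹ = MulAut.conj g x := by simp
  rw [this, MulEquiv.orderOf_eq]; exact hx

/-- elements `i * q` -/
lemma Hyp.mulInv {i : G} (h : Hyp i) {q : G} (hq : Inv q) :
    Odd (orderOf (i * q)) ∧ i * (i * q) * i = (i * q)⁻¹ := by
  constructor
  · by_cases hqi : q = i
    · rw [hqi, h.sq, orderOf_one]; exact _root_.odd_one
    · exact h.odd_mul hq hqi
  · rw [mul_inv_rev, hq.inv, h.inv, ← mul_assoc, h.sq, one_mul]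

lemma Hyp.invOf {i : G} (h : Hyp i) {k : G} (ho : Odd (orderOf k)) (hk : i * k * i = k⁻¹) :
    Inv (i * k) := by
  refine ⟨?_, ?_⟩
  · have : i * k * (i * k) = (i * k * i) * k := by group
    rw [this, hk, inv_mul_cancel]
  · intro hcon
    have h1 : k = i := by
      have := mul_eq_one_iff_eq_inv'.mp hcon
      rw [this, h.inv]
    rw [h1] at ho
    exact h.isInv.not_odd ho

/-- a subgroup inverted by `i` is abelian -/
lemma comm_of_inverted {i : G} (hi : i * i = 1) (K : Subgroup G)
    (hK : ∀ x ∈ K, i * x * i = x⁻¹) {x y : G} (hx : x ∈ K) (hy : y ∈ K) : x * y = y * x := by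
  have h1 := hK _ hx
  have h2 := hK _ hy
  have h3 := hK _ (K.mul_mem hx hy)
  have h4 : i * (x * y) * i = i * x * (i * i) * y * i := by rw [hi]; group
  have h5 : i * x * (i * i) * y * i = (i * x * i) * (i * y * i) := by group
  rw [h4, h5, h1, h2, ← mul_inv_rev] at h3
  exact (inv_injective h3).symm

/-- Part B2 -/
theorem Hyp.glue {i c : G} (h : Hyp i) (hc : c * c = i)
    (hK : ∀ t : G, Inv t → ∃ K : Subgroup G, ∀ g : G, g ∈ K ↔
      (g ∈ Subgroup.closure ({c, t} : Set G) ∧ Odd (orderOf g) ∧ i * g * i = g⁻¹)) :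
    ∃ H : Subgroup G, (H : Set G) = {g : G | Odd (orderOf g) ∧ i * g * i⁻¹ = g⁻¹} := by
  have hci : c * i = i * c := by rw [← hc]; group
  have hci' : c⁻¹ * i = i * c⁻¹ := (show Commute c i from hci).inv_left
  have hcinv : c * i = c⁻¹ := by
    rw [eq_inv_iff_mul_eq_one, mul_assoc, ← hci, ← mul_assoc, hc, h.sq]
  have hcinv2 : c⁻¹ * i = c := by
    rw [← hcinv, mul_assoc, h.sq, mul_one]
  have hcinv3 : c⁻¹ * c⁻¹ = i := by
    rw [← mul_inv_rev, hc, h.inv]
  -- properties of K
  have hKc : ∀ t : G, ∀ K : Subgroup G, (∀ g : G, g ∈ K ↔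
      (g ∈ Subgroup.closure ({c, t} : Set G) ∧ Odd (orderOf g) ∧ i * g * i = g⁻¹)) →
      ∀ x ∈ K, c * x * c⁻¹ ∈ K ∧ c⁻¹ * x * c ∈ K := by
    intro t K hK x hx
    obtain ⟨h1, h2, h3⟩ := (hK x).mp hx
    have hcc : c ∈ Subgroup.closure ({c, t} : Set G) :=
      Subgroup.subset_closure (Set.mem_insert _ _)
    constructor
    · rw [hK]
      refine ⟨mul_mem (mul_mem hcc h1) (inv_mem hcc), odd_conj h2 c, ?_⟩
      calc i * (c * x * c⁻¹) * i = (i * c) * x * (c⁻¹ * i) := by group
        _ = c * (i * x * i) * c⁻¹ := by rw [← hci, hci']; group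
        _ = (c * x * c⁻¹)⁻¹ := by rw [h3]; group
    · rw [hK]
      refine ⟨mul_mem (mul_mem (inv_mem hcc) h1) hcc, ?_, ?_⟩
      · have := odd_conj h2 c⁻¹
        rwa [inv_inv] at this
      calc i * (c⁻¹ * x * c) * i = (i * c⁻¹) * x * (c * i) := by group
        _ = c⁻¹ * (i * x * i) * c := by rw [← hci', hci]; group
        _ = (c⁻¹ * x * c)⁻¹ := by rw [h3]; group
  have hKi : ∀ t : G, Inv t → ∀ K : Subgroup G, (∀ g : G, g ∈ K ↔
      (g ∈ Subgroup.closure ({c, t} : Set G) ∧ Odd (orderOf g) ∧ i * g * i = g⁻¹)) →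
      i * t ∈ K := by
    intro t ht K hK
    rw [hK]
    have hcc : c ∈ Subgroup.closure ({c, t} : Set G) :=
      Subgroup.subset_closure (Set.mem_insert _ _)
    have htt : t ∈ Subgroup.closure ({c, t} : Set G) :=
      Subgroup.subset_closure (Set.mem_insert_of_mem _ rfl)
    refine ⟨?_, (h.mulInv ht).1, (h.mulInv ht).2⟩
    rw [← hc]
    exact mul_mem (mul_mem hcc hcc) htt
  -- (a)
  have ha : ∀ t : G, Inv t → ∃ g : G, c⁻¹ * t = g * c * g⁻¹ := by
    intro t ht
    obtain ⟨K, hK⟩ := hK t ht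
    have hb := hKi t ht K hK
    have hinv : ∀ x ∈ K, i * x * i = x⁻¹ := fun x hx => ((hK x).mp hx).2.2
    obtain ⟨n, hn⟩ := (h.mulInv ht).1
    set b := i * t with hbdef
    have hr : b ^ (n + 1) ∈ K := K.pow_mem hb _
    set r := b ^ (n + 1) with hrdef
    have hrr : r * r = b := by
      rw [hrdef, ← pow_add]
      have : n + 1 + (n + 1) = orderOf b + 1 := by omega
      rw [this, pow_succ, pow_orderOf_eq_one, one_mul]
    have hσr := (hKc t K hK r hr).2
    have hcomm := comm_of_inverted h.sq K hinv hr hσr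
    have hσσ : c⁻¹ * (c⁻¹ * r * c) * c = r⁻¹ := by
      have h1 : c⁻¹ * (c⁻¹ * r * c) * c = (c⁻¹ * c⁻¹) * r * (c * c) := by group
      rw [h1, hcinv3, hc, hinv r hr]
    refine ⟨(r * (c⁻¹ * r * c))⁻¹, ?_⟩
    have h1 : c⁻¹ * t = c * b := by
      rw [hbdef, ← mul_assoc, hcinv]
    rw [h1, inv_inv]
    have h2 : c⁻¹ * (r * (c⁻¹ * r * c)) * c * b = r * (c⁻¹ * r * c) := by
      calc c⁻¹ * (r * (c⁻¹ * r * c)) * c * b
          = (c⁻¹ * r * c) * (c⁻¹ * (c⁻¹ * r * c) * c) * b := by group
        _ = (c⁻¹ * r * c) * r⁻¹ * (r * r) := by rw [hσσ, hrr]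
        _ = (c⁻¹ * r * c) * r := by group
        _ = r * (c⁻¹ * r * c) := hcomm.symm
    have h3 : (r * (c⁻¹ * r * c)) * c * b = c * (r * (c⁻¹ * r * c)) := by
      have h4 : c * (c⁻¹ * (r * (c⁻¹ * r * c)) * c * b) = c * (r * (c⁻¹ * r * c)) := by rw [h2]
      rw [← h4]; group
    calc c * b = (r * (c⁻¹ * r * c))⁻¹ * ((r * (c⁻¹ * r * c)) * c * b) := by group
      _ = (r * (c⁻¹ * r * c))⁻¹ * c * (r * (c⁻¹ * r * c)) := by rw [h3]; group
  -- (b)
  have hb : ∀ g : G, Inv (c * (g * c * g⁻¹)) := by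
    intro g
    obtain ⟨c1, hc1, hm⟩ := h.coset_exists g⁻¹
    set m := c1 * g⁻¹ with hmdef
    have hg : g = m * c1 := by
      have h1 : g = m⁻¹ * c1 := by rw [hmdef]; group
      rw [h1, hm.inv]
    have hcc1 : c1 * c = c * c1 := h.comm hc1 hci
    have h1 : g * c * g⁻¹ = m * c * m := by
      rw [hg]
      have : m * c1 * c * (m * c1)⁻¹ = m * (c1 * c) * c1⁻¹ * m⁻¹ := by group
      rw [this, hcc1, hm.inv]; group
    obtain ⟨K, hK⟩ := hK m hm
    have hbK := hKi m hm K hK
    have hk := K.mul_mem (hKc m K hK _ hbK).1 hbK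
    have h2 : c * (m * c * m) = i * (c * (i * m) * c⁻¹ * (i * m)) := by
      have h3 : c * m = c⁻¹ * (i * m) := by rw [← mul_assoc c⁻¹ i m, hcinv2]
      calc c * (m * c * m) = (c * m) * (c * m) := by group
        _ = c⁻¹ * (i * m) * (c⁻¹ * (i * m)) := by rw [h3]
        _ = (c⁻¹ * c⁻¹) * (c * (i * m) * c⁻¹ * (i * m)) := by group
        _ = i * (c * (i * m) * c⁻¹ * (i * m)) := by rw [hcinv3]
    rw [h1, h2]
    obtain ⟨_, h4, h5⟩ := (hK _).mp hk
    exact h.invOf h4 h5
  have hfinal : ∀ j1 j2 : G, Inv j1 → Inv j2 → Inv (j1 * i * j2) := by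
    intro j1 j2 h1 h2
    obtain ⟨g1, hg1⟩ := ha j1 h1
    obtain ⟨g2, hg2⟩ := ha j2 h2
    have h3 : j1 * i * j2 = (c * g1) * (c * (((c * g1)⁻¹ * g2) * c * ((c * g1)⁻¹ * g2)⁻¹)) *
        (c * g1)⁻¹ := by
      have h4 : j1 = c * (g1 * c * g1⁻¹) := by rw [← hg1]; group
      have h5 : j2 = c * (g2 * c * g2⁻¹) := by rw [← hg2]; group
      calc j1 * i * j2 = j1 * (i * c) * (g2 * c * g2⁻¹) := by rw [h5]; group
        _ = j1 * c⁻¹ * (g2 * c * g2⁻¹) := by rw [← hci, hcinv]
        _ = _ := by rw [h4]; group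
    rw [h3]
    exact (hb _).conj _
  refine ⟨{ carrier := {g : G | Odd (orderOf g) ∧ i * g * i⁻¹ = g⁻¹}
            mul_mem' := ?_
            one_mem' := ?_
            inv_mem' := ?_ }, rfl⟩
  · rintro x y ⟨hx1, hx2⟩ ⟨hy1, hy2⟩
    rw [h.inv] at hx2 hy2
    have h1 := h.invOf hx1 hx2
    have h2 := h.invOf hy1 hy2
    have h3 := hfinal _ _ h1 h2
    have h4 : x * y = i * (i * x * i * (i * y)) := by
      have : i * (i * x * i * (i * y)) = (i * i) * x * (i * i) * y := by group
      rw [this, h.sq, one_mul, mul_one]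
    show Odd (orderOf (x * y)) ∧ i * (x * y) * i⁻¹ = (x * y)⁻¹
    rw [h4, h.inv]
    exact h.mulInv h3
  · show Odd (orderOf (1 : G)) ∧ i * 1 * i⁻¹ = (1 : G)⁻¹
    simp
  · rintro x ⟨hx1, hx2⟩
    show Odd (orderOf x⁻¹) ∧ i * x⁻¹ * i⁻¹ = (x⁻¹)⁻¹
    refine ⟨by rw [orderOf_inv]; exact hx1, ?_⟩
    have h1 : i * x⁻¹ * i⁻¹ = (i * x * i⁻¹)⁻¹ := by group
    rw [h1, hx2]

end Pool.Agent.Lib.MP_a5a406_al
end

section

set_option autoImplicit false

namespace Pool.Agent.Lib.MP_a5a406_al

variable {G : Type*} [Group G]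

lemma Hyp.exists_root {i : G} (h : Hyp i) (hinf : ¬ {a : G | a * i = i * a}.Finite) :
    ∃ c : G, c * c = i := by
  have h1 : ∃ a : G, a * i = i * a ∧ a ≠ 1 ∧ a ≠ i := by
    by_contra hcon
    push Not at hcon
    apply hinf
    apply Set.Finite.subset (Set.toFinite ({1, i} : Set G))
    intro a ha
    by_cases h2 : a = 1
    · left; exact h2
    · right; exact hcon a ha h2
  obtain ⟨a, ha, ha1, hai⟩ := h1
  obtain ⟨k, hk⟩ := h.ord_pow ha
  have hk2 : 2 ≤ k := by
    by_contra hlt
    have h2 : a * a = 1 := by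
      have h3 : orderOf a ∣ 2 := by
        rw [hk]
        have : k = 0 ∨ k = 1 := by omega
        rcases this with rfl | rfl <;> norm_num
      have h4 := orderOf_dvd_iff_pow_eq_one.mp h3
      rwa [pow_two] at h4
    rcases h.invol ha h2 with h3 | h3
    · exact ha1 h3
    · exact hai h3
  obtain ⟨l, rfl⟩ := Nat.exists_eq_add_of_le hk2
  refine ⟨a ^ (2 ^ l), ?_⟩
  have h2 : a ^ (2 ^ l) * a ^ (2 ^ l) = a ^ (2 ^ (l + 1)) := by
    rw [← pow_add]; congr 1; ring
  rw [h2]
  have h3 : a ^ (2 ^ (l + 1)) * i = i * a ^ (2 ^ (l + 1)) :=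
    (show Commute a i from ha).pow_left _
  have h4 : a ^ (2 ^ (l + 1)) * a ^ (2 ^ (l + 1)) = 1 := by
    rw [← pow_add]
    have : 2 ^ (l + 1) + 2 ^ (l + 1) = orderOf a := by rw [hk]; ring
    rw [this]; exact pow_orderOf_eq_one a
  rcases h.invol h3 h4 with h5 | h5
  · exfalso
    have h6 := orderOf_dvd_of_pow_eq_one h5
    rw [hk] at h6
    have h7 := Nat.le_of_dvd (by positivity) h6
    have h8 : 2 ^ (l + 1) < 2 ^ (2 + l) := Nat.pow_lt_pow_right (by norm_num) (by omega)
    omega
  · exact h5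

/-- Part B4: the generated group is simple -/
theorem Hyp.simple {i c t : G} (h : Hyp i) (hc : c * c = i) (ht : Inv t)
    (hgen : Subgroup.closure ({c, t} : Set G) = ⊤)
    (hinf : ¬ {a : G | a * i = i * a}.Finite) : IsSimpleGroup G := by
  have hci : c * i = i * c := by rw [← hc]; group
  have hc4 : c ^ 4 = 1 := by
    have : c ^ 4 = (c * c) * (c * c) := by
      rw [← pow_two c, ← pow_add]
    rw [this, hc, h.sq]
  have hnt : Nontrivial G := ⟨i, 1, h.ne_one⟩
  refine { eq_bot_or_eq_top_of_normal := ?_ }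
  intro N hN
  by_cases hNi : ∃ q ∈ N, Inv q
  · -- N contains an involution
    right
    obtain ⟨q, hqN, hq⟩ := hNi
    have hall : ∀ r : G, Inv r → r ∈ N := by
      intro r hr
      obtain ⟨g, hg⟩ := exists_conj (h.all hq) hr
      rw [← hg]; exact hN.conj_mem q hqN g
    have hiN := hall i h.isInv
    have htN := hall t ht
    -- an element of large order
    have hbig : ∃ a : G, a * i = i * a ∧ orderOf a ≠ 1 ∧ orderOf a ≠ 2 ∧ orderOf a ≠ 4 ∧
        orderOf a ≠ 8 := by
      by_contra hcon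
      push Not at hcon
      apply hinf
      have hfin := (((h.finite_order 1).union (h.finite_order 2)).union (h.finite_order 4)).union
        (h.finite_order 8)
      refine hfin.subset ?_
      intro a ha
      by_cases h1 : orderOf a = 1
      · left; left; left; exact ⟨ha, h1⟩
      by_cases h2 : orderOf a = 2
      · left; left; right; exact ⟨ha, h2⟩
      by_cases h4 : orderOf a = 4
      · left; right; exact ⟨ha, h4⟩
      · right; exact ⟨ha, hcon a ha h1 h2 h4⟩
    obtain ⟨a, ha, h1, h2, h4, h8⟩ := hbig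
    obtain ⟨k, hk⟩ := h.ord_pow ha
    have haa : (a * a) * i = i * (a * a) := by
      rw [mul_assoc, ha, ← mul_assoc, ha, mul_assoc]
    have hcaa : c ∈ Subgroup.zpowers (a * a) := by
      rcases h.chain haa hci with h5 | h5
      · exfalso
        obtain ⟨n, hn⟩ := Subgroup.mem_zpowers_iff.mp h5
        have h6 : (a * a) ^ 4 = 1 := by
          rw [← hn, ← zpow_natCast, ← zpow_mul, mul_comm, zpow_mul, zpow_natCast, hc4, one_zpow]
        have h7 : a ^ 8 = 1 := by
          have : a ^ 8 = (a * a) ^ 4 := by rw [← pow_two, ← pow_mul]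
          rw [this]; exact h6
        have h9 := orderOf_dvd_of_pow_eq_one h7
        have h10 : k ≤ 3 := by
          rw [hk] at h9
          have : (2 : ℕ) ^ k ∣ 2 ^ 3 := by norm_num; exact h9
          exact (Nat.pow_dvd_pow_iff_le_right (by norm_num)).mp this
        interval_cases k <;> simp_all
      · exact h5
    obtain ⟨m, hm⟩ := Subgroup.mem_zpowers_iff.mp hcaa
    have hcsq : c = a ^ m * a ^ m := by
      rw [← hm, ← zpow_add]
      have : (a * a) = a ^ (2 : ℤ) := by rw [zpow_two]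
      rw [this, ← zpow_mul]; congr 1; ring
    -- quotient
    have hquot : ∀ g : G, (QuotientGroup.mk' N g) ∈ Subgroup.zpowers (QuotientGroup.mk' N c) := by
      intro g
      have hg : g ∈ Subgroup.closure ({c, t} : Set G) := by rw [hgen]; trivial
      induction hg using Subgroup.closure_induction with
      | mem x hx =>
        rcases hx with rfl | hx
        · exact Subgroup.mem_zpowers _
        · have hx' : x = t := hx
          have : QuotientGroup.mk' N x = 1 := by
            rw [← MonoidHom.mem_ker, QuotientGroup.ker_mk', hx']; exact htN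
          rw [this]; exact Subgroup.one_mem _
      | one => rw [map_one]; exact Subgroup.one_mem _
      | mul x y _ _ hx hy => rw [map_mul]; exact Subgroup.mul_mem _ hx hy
      | inv x _ hx => rw [map_inv]; exact Subgroup.inv_mem _ hx
    have hcN : c ∈ N := by
      obtain ⟨l, hl⟩ := Subgroup.mem_zpowers_iff.mp (hquot (a ^ m))
      have h5 : QuotientGroup.mk' N c = 1 := by
        have h6 : QuotientGroup.mk' N c * QuotientGroup.mk' N c = 1 := by
          rw [← map_mul, hc, ← MonoidHom.mem_ker, QuotientGroup.ker_mk']; exact hiN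
        nth_rewrite 1 [hcsq]
        rw [map_mul, ← hl, ← zpow_add, ← two_mul, zpow_mul, zpow_two, h6, one_zpow]
      rwa [← MonoidHom.mem_ker, QuotientGroup.ker_mk'] at h5
    rw [eq_top_iff, ← hgen, Subgroup.closure_le]
    intro x hx
    rcases hx with rfl | hx
    · exact hcN
    · have hx' : x = t := hx
      rw [hx']; exact htN
  · -- N has only odd elements
    left
    push Not at hNi
    by_contra hNbot
    obtain ⟨b, hbN, hb1⟩ := N.bot_or_exists_ne_one.resolve_left hNbot
    have hodd : ∀ x ∈ N, Odd (orderOf x) := by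
      intro x hx
      by_contra hcon
      obtain ⟨n, hn⟩ := exists_inv_pow h.tors hcon
      exact hNi _ (N.pow_mem hx n) hn
    have hinv : ∀ q : G, Inv q → ∀ x ∈ N, q * x * q = x⁻¹ := by
      intro q hq x hx
      apply (h.all hq).inverts N hodd ?_ hx
      intro y hy
      have := hN.conj_mem y hy q
      rwa [hq.inv] at this
    have hNab : ∀ x ∈ N, ∀ y ∈ N, x * y = y * x := fun x hx y hy =>
      comm_of_inverted h.sq N (hinv i h.isInv) hx hy
    have hib := hinv i h.isInv b hbN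
    -- c normalises the centraliser of b
    have hstep : ∀ g m : G, m * b = b * m → (g * m * g⁻¹) * b = b * (g * m * g⁻¹) := by
      intro g m hm
      have hb1N : g * b * g⁻¹ ∈ N := hN.conj_mem b hbN g
      have hne : g * b * g⁻¹ ≠ 1 := by
        intro hcon
        apply hb1
        have : b = g⁻¹ * (g * b * g⁻¹) * g := by group
        rw [this, hcon]; group
      apply h.cent_comm hne (hodd _ hb1N) (hinv i h.isInv _ hb1N)
      · have e1 : g * m * g⁻¹ * (g * b * g⁻¹) = g * (m * b) * g⁻¹ := by group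
        have e2 : g * b * g⁻¹ * (g * m * g⁻¹) = g * (b * m) * g⁻¹ := by group
        rw [e1, e2, hm]
      · exact hNab b hbN _ hb1N
    have hcov : ∀ g : G, ∃ k : ℤ, (c ^ k * g) * b = b * (c ^ k * g) := by
      intro g
      have hg : g ∈ Subgroup.closure ({c, t} : Set G) := by rw [hgen]; trivial
      induction hg using Subgroup.closure_induction with
      | mem x hx =>
        rcases hx with rfl | hx
        · exact ⟨-1, by rw [zpow_neg_one, inv_mul_cancel, one_mul, mul_one]⟩
        · have hx' : x = t := hx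
          subst hx'
          refine ⟨2, ?_⟩
          rw [zpow_two, hc]
          have h1 := hinv x ht b hbN
          have h2 : x * b = b⁻¹ * x := by
            have e : x * b = (x * b * x) * x⁻¹ := by group
            rw [e, h1, ht.inv]
          have h3 : i * b⁻¹ = b * i := by
            have e : b * i = (i * b * i)⁻¹ * i := by rw [hib]; group
            rw [e]
            have : (i * b * i)⁻¹ * i = i⁻¹ * b⁻¹ := by group
            rw [this, h.inv]
          calc i * x * b = i * (x * b) := by group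
            _ = (i * b⁻¹) * x := by rw [h2]; group
            _ = b * (i * x) := by rw [h3]; group
      | one => exact ⟨0, by rw [zpow_zero, one_mul, one_mul, mul_one]⟩
      | mul x y _ _ hx hy =>
        obtain ⟨k, hk⟩ := hx
        obtain ⟨l, hl⟩ := hy
        refine ⟨k + l, ?_⟩
        have h1 := hstep (c ^ l) _ hk
        have e : c ^ (k + l) * (x * y) = (c ^ l * (c ^ k * x) * (c ^ l)⁻¹) * (c ^ l * y) := by
          rw [zpow_add, (Commute.refl c).zpow_zpow k l]
          group
        rw [e]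
        exact (show Commute _ _ from h1).mul_left hl
      | inv x _ hx =>
        obtain ⟨k, hk⟩ := hx
        refine ⟨-k, ?_⟩
        have h1 : (c ^ k * x)⁻¹ * b = b * (c ^ k * x)⁻¹ := (show Commute _ _ from hk).inv_left
        have h2 := hstep (c ^ (-k)) _ h1
        have e : c ^ (-k) * x⁻¹ = c ^ (-k) * (c ^ k * x)⁻¹ * (c ^ (-k))⁻¹ := by
          rw [mul_inv_rev]; group
        rw [e]; exact h2
    apply hinf
    have hfin : (Subgroup.zpowers c : Set G).Finite := finite_zpowers.mpr (h.tors c)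
    refine hfin.subset ?_
    intro a ha
    obtain ⟨k, hk⟩ := hcov a
    have h1 := (h.cent_inv hb1 (hodd b hbN) hib hk).1
    have h2 : (c ^ k * a) * i = i * (c ^ k * a) :=
      ((show Commute c i from hci).zpow_left k).mul_left ha
    have h3 := h.odd_one h2 h1
    show a ∈ Subgroup.zpowers c
    rw [Subgroup.mem_zpowers_iff]
    exact ⟨-k, by rw [zpow_neg]; exact (mul_eq_one_iff_inv_eq.mp h3)⟩

/-- Part B5: in a simple group of this kind the inverted elements do not form a subgroup -/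
theorem Hyp.not_simple {i c t : G} (h : Hyp i) (hc : c * c = i) (ht : Inv t)
    (hgen : Subgroup.closure ({c, t} : Set G) = ⊤) (K : Subgroup G)
    (hK : ∀ g : G, g ∈ K ↔ (Odd (orderOf g) ∧ i * g * i = g⁻¹)) : ¬ IsSimpleGroup G := by
  intro hsimp
  have hinvK : ∀ x ∈ K, i * x * i = x⁻¹ := fun x hx => ((hK x).mp hx).2
  have hnorm : K.Normal := by
    constructor
    intro x hx g
    obtain ⟨c1, hc1, hm⟩ := h.coset_exists g
    set m := c1 * g with hmdef
    have hg : g = c1⁻¹ * m := by rw [hmdef]; group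
    have him : i * m ∈ K := (hK _).mpr (h.mulInv hm)
    have h1 : m * x * m⁻¹ = x⁻¹ := by
      have hcomm := comm_of_inverted h.sq K hinvK him hx
      have e : m = i * (i * m) := by rw [← mul_assoc, h.sq, one_mul]
      calc m * x * m⁻¹ = i * ((i * m) * x) * m⁻¹ := by nth_rewrite 1 [e]; group
        _ = i * x * i := by rw [hcomm]; group
        _ = x⁻¹ := hinvK x hx
    have h2 : g * x * g⁻¹ = c1⁻¹ * x⁻¹ * c1 := by
      rw [hg]
      have e : c1⁻¹ * m * x * (c1⁻¹ * m)⁻¹ = c1⁻¹ * (m * x * m⁻¹) * c1 := by group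
      rw [e, h1]
    rw [h2, hK]
    obtain ⟨hx1, hx2⟩ := (hK x).mp hx
    have hc1i : c1⁻¹ * i = i * c1⁻¹ := (show Commute c1 i from hc1).inv_left
    constructor
    · have := odd_conj (x := x⁻¹) (by rw [orderOf_inv]; exact hx1) c1⁻¹
      rwa [inv_inv] at this
    · have h3 : i * x⁻¹ * i = x := by
        have e : i * x⁻¹ * i = (i⁻¹ * x * i⁻¹)⁻¹ := by group
        rw [e, h.inv, hx2, inv_inv]
      calc i * (c1⁻¹ * x⁻¹ * c1) * i = (i * c1⁻¹) * x⁻¹ * (c1 * i) := by group
        _ = c1⁻¹ * (i * x⁻¹ * i) * c1 := by rw [← hc1i, hc1]; group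
        _ = (c1⁻¹ * x⁻¹ * c1)⁻¹ := by rw [h3]; group
  rcases hsimp.eq_bot_or_eq_top_of_normal K hnorm with hbot | htop
  · have h1 : i * t ∈ K := (hK _).mpr (h.mulInv ht)
    rw [hbot, Subgroup.mem_bot] at h1
    have hti : t = i := by
      have := mul_eq_one_iff_inv_eq.mp h1
      rw [← this, h.inv]
    have hall : ∀ g : G, g ∈ Subgroup.zpowers c := by
      intro g
      have hg : g ∈ Subgroup.closure ({c, t} : Set G) := by rw [hgen]; trivial
      have hle : Subgroup.closure ({c, t} : Set G) ≤ Subgroup.zpowers c := by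
        rw [Subgroup.closure_le]
        intro x hx
        rcases hx with rfl | hx
        · exact Subgroup.mem_zpowers _
        · have hx' : x = t := hx
          rw [hx', hti, ← hc]
          exact mul_mem (Subgroup.mem_zpowers c) (Subgroup.mem_zpowers c)
      exact hle hg
    have hcommi : ∀ g : G, g * i = i * g := by
      intro g
      obtain ⟨k, rfl⟩ := Subgroup.mem_zpowers_iff.mp (hall g)
      have hci : Commute c i := by
        show c * i = i * c
        rw [← hc]; group
      exact hci.zpow_left k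
    have hnormi : (Subgroup.zpowers i).Normal := by
      constructor
      intro x hx g
      obtain ⟨k, rfl⟩ := Subgroup.mem_zpowers_iff.mp hx
      have h2 : g * i ^ k * g⁻¹ = i ^ k := by
        have h3 : Commute g (i ^ k) := (show Commute g i from hcommi g).zpow_right k
        rw [h3.eq]; group
      rw [h2]; exact hx
    have hpow : ∀ x ∈ Subgroup.zpowers i, x * x = 1 := by
      intro x hx
      obtain ⟨k, rfl⟩ := Subgroup.mem_zpowers_iff.mp hx
      rw [← (Commute.refl i).mul_zpow k, h.sq, one_zpow]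
    rcases hsimp.eq_bot_or_eq_top_of_normal _ hnormi with h2 | h2
    · rw [Subgroup.zpowers_eq_bot] at h2
      exact h.ne_one h2
    · have h3 : c ∈ Subgroup.zpowers i := by rw [h2]; trivial
      have h4 := hpow c h3
      rw [hc] at h4
      exact h.ne_one h4
  · have h1 : i ∈ K := by rw [htop]; trivial
    exact h.isInv.not_odd ((hK i).mp h1).1


lemma gen_top (S : Subgroup G) (c t : G) (hS : S = Subgroup.closure ({c, t} : Set G))
    (hcm : c ∈ S) (htm : t ∈ S) :
    Subgroup.closure ({⟨c, hcm⟩, ⟨t, htm⟩} : Set S) = ⊤ := by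
  subst hS
  have h1 := Subgroup.closure_closure_coe_preimage (k := ({c, t} : Set G))
  have h2 : ((↑) : Subgroup.closure ({c, t} : Set G) → G) ⁻¹' ({c, t} : Set G) =
      {⟨c, hcm⟩, ⟨t, htm⟩} := by
    ext x
    simp only [Set.mem_preimage, Set.mem_insert_iff, Set.mem_singleton_iff, Subtype.ext_iff]
  rw [h2] at h1
  exact h1

lemma inv_of_order {t : G} (ht : orderOf t = 2) : Inv t := by
  refine ⟨?_, ?_⟩
  · have := pow_orderOf_eq_one t
    rwa [ht, pow_two] at this
  · intro hcon
    rw [hcon, orderOf_one] at ht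
    omega

lemma Inv.sub {t : G} (ht : Inv t) (S : Subgroup G) (htm : t ∈ S) : Inv (⟨t, htm⟩ : S) := by
  refine ⟨?_, ?_⟩
  · apply Subtype.ext; exact ht.1
  · intro hcon; exact ht.2 (congrArg Subtype.val hcon)

lemma Hyp.red1 {i c t : G} (h : Hyp i) (hc : c * c = i) (ht : Inv t) (S : Subgroup G)
    (hS : S = Subgroup.closure ({c, t} : Set G)) (H : Subgroup G)
    (hH : (H : Set G) = {g : G | Odd (orderOf g) ∧ i * g * i⁻¹ = g⁻¹}) :
    ¬ IsSimpleGroup S := by
  have hcm : c ∈ S := by rw [hS]; exact Subgroup.subset_closure (Set.mem_insert _ _)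
  have htm : t ∈ S := by
    rw [hS]; exact Subgroup.subset_closure (Set.mem_insert_of_mem _ rfl)
  have him : i ∈ S := by rw [← hc]; exact mul_mem hcm hcm
  have hSi := h.sub S him
  have hgt := gen_top S c t hS hcm htm
  have hcc : (⟨c, hcm⟩ : S) * ⟨c, hcm⟩ = ⟨i, him⟩ := Subtype.ext hc
  have hts := ht.sub S htm
  have hK : ∀ g : S, g ∈ H.subgroupOf S ↔
      (Odd (orderOf g) ∧ (⟨i, him⟩ : S) * g * ⟨i, him⟩ = g⁻¹) := by
    intro g
    rw [Subgroup.mem_subgroupOf, ← SetLike.mem_coe, hH, Set.mem_setOf_eq, Subgroup.orderOf_coe,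
      h.inv]
    constructor
    · rintro ⟨h1, h2⟩
      exact ⟨h1, Subtype.ext h2⟩
    · rintro ⟨h1, h2⟩
      exact ⟨h1, congrArg Subtype.val h2⟩
  exact hSi.not_simple hcc hts hgt (H.subgroupOf S) hK

lemma Hyp.red2 {i c t : G} (h : Hyp i) (hc : c * c = i) (ht : Inv t) (S : Subgroup G)
    (hS : S = Subgroup.closure ({c, t} : Set G))
    (hno : ¬ ∃ K : Subgroup G, ∀ g : G, g ∈ K ↔
      (g ∈ S ∧ Odd (orderOf g) ∧ i * g * i = g⁻¹)) :
    IsSimpleGroup S ∧ Infinite (↥(S ⊓ Subgroup.centralizer ({i} : Set G))) := by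
  have hcm : c ∈ S := by rw [hS]; exact Subgroup.subset_closure (Set.mem_insert _ _)
  have htm : t ∈ S := by
    rw [hS]; exact Subgroup.subset_closure (Set.mem_insert_of_mem _ rfl)
  have him : i ∈ S := by rw [← hc]; exact mul_mem hcm hcm
  have hSi := h.sub S him
  have hgt := gen_top S c t hS hcm htm
  have hcc : (⟨c, hcm⟩ : S) * ⟨c, hcm⟩ = ⟨i, him⟩ := Subtype.ext hc
  have hts := ht.sub S htm
  have hfin : ¬ Finite (Subgroup.centralizer ({⟨i, him⟩} : Set S)) := by
    intro hfin
    obtain ⟨K, hK⟩ := hSi.theoremA (Or.inr hfin)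
    apply hno
    refine ⟨K.map S.subtype, ?_⟩
    intro g
    rw [Subgroup.mem_map]
    constructor
    · rintro ⟨x, hx, rfl⟩
      rw [← SetLike.mem_coe, hK, Set.mem_setOf_eq, hSi.inv] at hx
      refine ⟨x.2, ?_, ?_⟩
      · rw [Subgroup.coe_subtype, Subgroup.orderOf_coe]; exact hx.1
      · exact congrArg Subtype.val hx.2
    · rintro ⟨hg1, hg2, hg3⟩
      refine ⟨⟨g, hg1⟩, ?_, rfl⟩
      rw [← SetLike.mem_coe, hK, Set.mem_setOf_eq, hSi.inv, Subgroup.orderOf_mk]
      exact ⟨hg2, Subtype.ext hg3⟩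
  constructor
  · refine hSi.simple hcc hts hgt ?_
    intro hf
    apply hfin
    have hset : {a : S | a * ⟨i, him⟩ = ⟨i, him⟩ * a} =
        (Subgroup.centralizer ({⟨i, him⟩} : Set S) : Set S) := by
      ext a; simp only [Set.mem_setOf_eq, SetLike.mem_coe]; exact mem_cent.symm
    rw [hset] at hf
    exact hf.to_subtype
  · by_contra hfin2
    rw [not_infinite_iff_finite] at hfin2
    apply hfin
    let f : (Subgroup.centralizer ({⟨i, him⟩} : Set S)) →
        (↥(S ⊓ Subgroup.centralizer ({i} : Set G))) :=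
      fun a => ⟨a.1.1, a.1.2, mem_cent.mpr (congrArg Subtype.val (mem_cent.mp a.2))⟩
    apply Finite.of_injective f
    intro a b hab
    have h1 : (a.1.1 : G) = b.1.1 :=
      congrArg (fun z : ↥(S ⊓ Subgroup.centralizer ({i} : Set G)) => (z : G)) hab
    exact Subtype.ext (Subtype.ext h1)

/-- Local reduction -/
theorem Hyp.reduction {i : G} (h : Hyp i) :
    (∃ H : Subgroup G, (H : Set G) = {g : G | Odd (orderOf g) ∧ i * g * i⁻¹ = g⁻¹}) ↔
    ¬ ∃ c t : G, c ^ 2 = i ∧ orderOf t = 2 ∧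
        IsSimpleGroup (Subgroup.closure ({c, t} : Set G)) ∧
        Infinite (↥(Subgroup.closure ({c, t} : Set G) ⊓ Subgroup.centralizer ({i} : Set G))) := by
  constructor
  · rintro ⟨H, hH⟩ ⟨c, t, hc, ht, hsimp, _⟩
    rw [pow_two] at hc
    exact h.red1 hc (inv_of_order ht) _ rfl H hH hsimp
  · intro hno
    by_contra hcounter
    have hinf : ¬ {a : G | a * i = i * a}.Finite := by
      intro hfin
      apply hcounter
      apply h.theoremA
      right
      have hset : {a : G | a * i = i * a} = (Subgroup.centralizer ({i} : Set G) : Set G) := by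
        ext a; simp only [Set.mem_setOf_eq, SetLike.mem_coe]; exact mem_cent.symm
      rw [hset] at hfin
      exact hfin.to_subtype
    obtain ⟨c, hc⟩ := h.exists_root hinf
    apply hcounter
    apply h.glue hc
    intro t ht
    by_contra hK
    obtain ⟨h1, h2⟩ := h.red2 hc ht _ rfl hK
    exact hno ⟨c, t, by rw [pow_two]; exact hc, ht.ord, h1, h2⟩

end Pool.Agent.Lib.MP_a5a406_al
end
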